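import Pool.Agent.Lib.MP_12eaff_co.Frz.FB.Pool
import Pool.Agent.Lib.MP_12eaff_co.Frz.F.Ifc3

set_option autoImplicit false
set_option linter.unusedSectionVars false

namespace Pool.Agent.Lib.MP_12eaff_co.Frz.FB

open Finset Pool.Agent.Lib.MP_12eaff_co.Frz.BK Pool.Agent.Lib.MP_12eaff_co.Frz.Acc2
open scoped Classical

variable {V : Type} [Fintype V] {G : SimpleGraph V} {D : ℕ}

/-- Real drops without a ticket. -/
noncomputable def Dq (T : Tr G D) (y : V) : Finset V :=
  (T.Dr y \ T.Dm).filter fun u => ¬ T.HasQ (O0 T) y u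

/-- One for a cluster with twins. -/
noncomputable def tw (W : Finset V) : ℕ := if W = ∅ then 0 else 1

/-- `y` is a child of the owner of a cluster whose largest clique has `D - 1` vertices. -/
def InC2 (T : Tr G D) (y : V) : Prop :=
  ∃ Y W q, Fam T Y W q ∧ y ∈ T.ch q ∧ y ∈ Y ∪ W ∧ Y.card + tw W + 1 = D

/-- The gift that `y` gets from each child. -/
noncomputable def nd3 (T : Tr G D) (y : V) : ℕ :=
  if T.ch y = ∅ then 0 else if InC2 T y then 4 else if InC T y then 3 else
    if ¬ InH T y ∧ (jm T y).card + 7 = D then 1 else 0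

/-- The gift that `x` gives to its parent. -/
noncomputable def gv3 (T : Tr G D) (x : V) : ℕ := if x = T.r then 0 else nd3 T (T.p x)

/-- What the neighbours of the late vertex `e` outside `H` cost. -/
noncomputable def fo (T : Tr G D) (H : Finset V) (e : V) : ℕ :=
  ((T.R \ H).filter fun v => e ∈ T.Dr v).card + if T.Vev e then (nb G e ∩ T.Dm).card else 0

end Pool.Agent.Lib.MP_12eaff_co.Frz.FB
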