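import Pool.Agent.Lib.MP_12eaff_co.Frz.FC.Defs

set_option autoImplicit false
set_option linter.unusedSectionVars false

namespace Pool.Agent.Lib.MP_12eaff_co.Frz.FB

open Finset Pool.Agent.Lib.MP_12eaff_co.Frz.BK Pool.Agent.Lib.MP_12eaff_co.Frz.Acc2
open scoped Classical

variable {V : Type} [Fintype V] {G : SimpleGraph V} {D : ℕ}
variable {T : Tr G D} {Y W : Finset V} {q y r x z e r1 : V} {g : V → ℕ}

open Tr IsA IsB

/-- A real drop is an event. -/
theorem ev_of_drop (h : IsC T) (hz : z ∈ T.R) (k : e ∈ T.Dr z) (eD : e ∉ T.Dm) :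
    EV T z e e (shift D (T.col z) z e) := by
  have eR := (h.drop z hz e k eD).1
  obtain ⟨⟨a, -, u⟩, -, l⟩ := mem_Dr.1 k
  have b : ∀ m ∈ T.Dm, shift D (T.col z) z e m = T.col z m := fun m p =>
    shift_o (fun i => eD (i ▸ p)) fun i => T.real z hz (i ▸ p)
  refine ⟨hz, eR, eD, fun zr => ?_, fun _ _ => rfl, fun m p => .inl (b m p), fun y yd => ?_⟩
  · have hp := T.p_mem z hz zr
    rw [← col_p_self hz zr, ← col_base hp eD fun i => eR i.mem.1]
    exact T.prop _ hp _ _ a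
  · have c := ((h.hc hz (S := {y, z, e}) (by simp) (by simp [yd, eD, T.real z hz])
      (Cov.edge1 a y)).shift (by simp) a.ne.symm u).mono (S := {e, y})
        (by simp [insert_subset_iff]) (by simp)
    have : (univ.filter fun m => D < shift D (T.col z) z e m) = (T.fm z {y, z, e}).B := by
      ext m
      rw [mem_fm_B, mem_filter, and_iff_right (mem_univ _)]
      by_cases i : m = e
      · rw [i]
        simp only [shift, Function.update_self]
        omega
      by_cases j : m = z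
      · rw [j, shift_l a.ne, col_self hz]
        omega
      · rw [shift_o i j]
    rw [this]
    exact c

namespace Fam

/-- A quiet member that drops `e` gets a ticket from an event at `e`. -/
theorem ev_tick (f : Fam T Y W q) (m : e ∈ Y ∪ W) (a : G.Adj q e) (v : EV T z e r1 g)
    (hy : y ∈ T.ch q) (n : ¬ Loud T (Y ∪ W) y) (k : e ∈ T.Dr y) (n1 : ¬ G.Adj z y)
    (n2 : ¬ T.Anc y z) (n3 : y ≠ r1) (u : Uq G g e y) : T.HasQ (O0 T) y e := by
  obtain ⟨y1, y2, y3⟩ := T.mem_ch.1 hy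
  obtain ⟨⟨ye, -, uq⟩, -, l⟩ := mem_Dr.1 k
  have ce : ∀ s ∈ T.R, T.col s e = T.c e := fun s p => col_base p v.eD fun i => v.eR i.mem.1
  have yz : y ≠ z := fun i => n2 (i ▸ .refl y y1)
  have gy : g y = T.col z y := (v.real y (T.real y y1)).trans (shift_o ye.ne yz)
  have hc := v.hc y (T.real y y1)
  obtain ⟨b, b1, b2⟩ := hc.uq_sees (by simp) ye.ne u l
    (by rw [gy, ce y y1, ← ce z v.zR]; exact (T.prop z v.zR _ _ ye).symm)
  have be : b ≠ e := fun i => by rw [i, hc.hole] at b2; omega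
  have bz : T.col z b = T.col y e := by
    by_cases d : b ∈ T.Dm
    · rcases v.port b d with i | i | i
      exacts [i ▸ b2, by omega, (i y b1).elim (absurd · ye.ne) (absurd · n3)]
    · rw [← b2, v.real b d, shift_o be fun i : b = z => n1 (i ▸ b1.symm)]
  rcases wit0 y1 v.zR n2 b1 l bz (uq b b1 be) with i | ⟨x, x1, x2, x3, x4⟩ | ⟨x, x1, x2, -, x3, x4⟩ | i
  · refine absurd ?_ (T.prop T.r T.r_mem q e a)
    rw [T.col_r, ← y3, ← i.2.1, i.2.2, ce y y1]
  · obtain ⟨p1, p2, p3⟩ := T.mem_ch.1 x1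
    have p : T.Pr x y e := ⟨p1, p2, p3 ▸ x2, x3⟩
    refine p.hasQ fun lx => ?_
    have nx := p.leaf_nanc lx
    obtain rfl := leaf_anc lx (x4.resolve_left fun i => nx i.1).2
    exact absurd (by rw [← ce y y1, ← x3, tc, if_neg nx]) (v.cz p2)
  · have bR := (anc_ch x1).mem.1
    have bH : b ∈ Y ∪ W := by_contra fun i =>
      n ⟨b, bR, i, x4, fun j => n2 (j.trans ((anc_ch x1).trans x2))⟩
    have ad : G.Adj b e := (mem_insert.1 (f.sub bR bH)).elim (· ▸ a) fun i =>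
      (mem_union.1 m).elim (fun j => f.cl.clq b i e j be) (f.cl.join b i e)
    have xR := x2.mem.1
    refine absurd ?_ (T.prop x xR b e ad)
    rw [col_anc x1 (.refl x xR), x3, ce y y1, ce x xR]
  · exact (i.pt v.zR).hasQ

theorem ev_cnt (h : IsC T) (f : Fam T Y W q) (m : e ∈ Y ∪ W) (a : G.Adj q e) (v : EV T z e r1 g)
    (n : z ∉ Y ∪ W) :
    ((T.ch q ∩ (Y ∪ W)).filter fun y => ¬ Loud T (Y ∪ W) y ∧ e ∈ Dq T y).card ≤ 6 := by
  have c1 := (h.far2 v.zR f.clq f.kreal (f.kout n) (f.kfar v.zR n)).2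
  have c2 := path_one (T := T) q z
  have hc := v.hc e v.eD
  have c3 : ((Y.erase z).filter fun y => G.Adj e y ∧ ¬ Uq G g e y).card ≤ 1 :=
    card_le_one.2 fun y p y' p' => by
      by_contra i
      simp only [mem_filter, mem_erase] at p p'
      have l : ∀ y ∈ Y, y ≠ z → G.Adj e y → g y < D := fun y p k k' => by
        have d := f.cl.real y (mem_union_left _ p)
        rw [v.real y d, shift_o k'.ne.symm k]
        exact T.full z v.zR y d k
      exact hc.ne (f.cl.clq y p.1.2 y' p'.1.2 i) (TW.dbl hc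
        ((card_le_card sdiff_subset).trans (h.deg' v.eD)) p.2.1 p'.2.1 (l y p.1.2 p.1.1 p.2.1)
        (l y' p'.1.2 p'.1.1 p'.2.1) p.2.2 p'.2.2)
  have s : ((T.ch q ∩ (Y ∪ W)).filter fun y => ¬ Loud T (Y ∪ W) y ∧ e ∈ Dq T y) ⊆
      (insert q Y).filter (G.Adj z) ∪ ((T.ch q).filter fun r => T.Anc r z) ∪ {r1} ∪
        (Y.erase z).filter fun y => G.Adj e y ∧ ¬ Uq G g e y := fun y k => by
    obtain ⟨k1, k2, k3⟩ := mem_filter.1 k
    obtain ⟨k4, k5⟩ := mem_inter.1 k1
    obtain ⟨k6, k7⟩ := mem_filter.1 k3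
    have yY := (f.chq k4 k5).1
    have d := (mem_sdiff.1 k6).1
    by_contra i
    simp only [mem_union, mem_filter, mem_singleton, mem_insert, mem_erase, not_or, not_and,
      not_not] at i
    exact k7 (f.ev_tick m a v k4 k2 d (i.1.1.1 (.inr yY)) (i.1.1.2 k4) i.1.2
      (i.2 ⟨fun j => n (j ▸ k5), yY⟩ (mem_Dr.1 d).1.1.symm))
  have := (card_le_card s).trans ((card_union_le _ _).trans (add_le_add_left
    ((card_union_le _ _).trans (add_le_add_left (card_union_le _ _) _)) _))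
  rw [card_singleton] at this
  omega

theorem fo_le (h : IsC T) (f : Fam T Y W q) (m : e ∈ (Y ∪ W) \ T.R) :
    fo T (Y ∪ W) e + Y.card + tw W ≤ D + 2 := by
  have a := f.out_le h (mem_sdiff.1 m).1
  have b : ((T.R \ (Y ∪ W)).filter fun v => e ∈ T.Dr v).card + (nb G e ∩ T.Dm).card ≤
      (nb G e \ (Y ∪ W)).card := by
    rw [← card_union_of_disjoint (disjoint_left.2 fun v p k =>
      T.real v (mem_sdiff.1 (mem_filter.1 p).1).1 (mem_inter.1 k).2)]
    exact card_le_card fun v p => (mem_union.1 p).elim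
      (fun p => mem_sdiff.2 ⟨mem_nb.2 (mem_Dr.1 (mem_filter.1 p).2).1.1.symm,
        (mem_sdiff.1 (mem_filter.1 p).1).2⟩)
      fun p => mem_sdiff.2 ⟨(mem_inter.1 p).1, fun i => f.cl.real v i (mem_inter.1 p).2⟩
  unfold fo tw
  split_ifs at * <;> omega

theorem fo_ev (h : IsC T) (f : Fam T Y W q) (m : e ∈ (Y ∪ W) \ T.R) (a : G.Adj q e)
    (p : fo T (Y ∪ W) e ≠ 0) :
    ((T.ch q ∩ (Y ∪ W)).filter fun y => ¬ Loud T (Y ∪ W) y ∧ e ∈ Dq T y).card ≤ 6 := by
  obtain ⟨m1, m2⟩ := mem_sdiff.1 m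
  by_cases k : T.Vev e
  · obtain ⟨z, r1, g, v, n⟩ := k
    refine f.ev_cnt h m1 a v fun i => n ((mem_insert.1 (f.sub v.zR i)).elim (· ▸ a) fun j =>
      (mem_union.1 m1).elim (fun l => f.cl.clq z j e l fun i => m2 (i ▸ v.zR)) (f.cl.join z j e))
  · rw [fo, if_neg k, add_zero] at p
    obtain ⟨z, l⟩ := card_pos.1 (Nat.pos_of_ne_zero p)
    obtain ⟨l1, l2⟩ := mem_filter.1 l
    exact f.ev_cnt h m1 a (ev_of_drop h (mem_sdiff.1 l1).1 l2 (f.cl.real e m1))
      (mem_sdiff.1 l1).2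

end Fam

end Pool.Agent.Lib.MP_12eaff_co.Frz.FB
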