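import Pool.Agent.Lib.MP_12eaff_co.Frz.FC.Defs

set_option autoImplicit false
set_option linter.unusedSectionVars false

namespace Pool.Agent.Lib.MP_12eaff_co.Frz.FB

open Finset Pool.Agent.Lib.MP_12eaff_co.Frz.BK Pool.Agent.Lib.MP_12eaff_co.Frz.Acc2
open scoped Classical

variable {V : Type} [Fintype V] {G : SimpleGraph V} {D : ℕ} {T : Tr G D} {x : V}

open Tr IsA IsB

/-- Tails of pairs with head `x` whose target is a real drop. -/
noncomputable def dH (T : Tr G D) (x : V) : Finset V :=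
  T.R.filter fun v => O0 T x v ∧ ∃ u ∈ T.Dr v \ T.Dm, T.Pr x v u

namespace IsC

theorem dH_leaf (h : IsC T) (l : T.ch x = ∅) : dH T x = ∅ :=
  eq_empty_of_forall_notMem fun v k => by
    obtain ⟨hv, a, u, b, p⟩ := mem_filter.1 k
    obtain ⟨b1, b2⟩ := mem_sdiff.1 b
    have n := p.leaf_nanc l
    refine (mem_Dr.1 b1).1.2.2 x (a l) (fun e => (h.drop v hv u b1 b2).1 (e ▸ p.1)) ?_
    rw [col_base hv (T.real x p.1) n, ← p.2.2.2, tc, if_neg n]

theorem dH_le (h : IsC T) (hp : T.p x ∈ T.R) :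
    (T.piQ (O0 T) x).card + (dH T x).card ≤ (T.Bd (T.p x) ∩ T.R).card := by
  rw [← card_union_of_disjoint (disjoint_left.2 fun v k k' => ?_)]
  · refine card_le_card fun v k => (mem_union.1 k).elim
      (fun k => mem_inter.2 ⟨h.H_Bd hp (mem_piQ.1 k).1 (piQ_sub k), (mem_piQ.1 k).1⟩) fun k => ?_
    obtain ⟨hv, -, u, -, p⟩ := mem_filter.1 k
    exact mem_inter.2 ⟨h.H_Bd hp hv p.2.2.1, hv⟩
  · obtain ⟨hv, -, u, b, p, -⟩ := mem_piQ.1 k
    obtain ⟨-, -, w, c, p'⟩ := mem_filter.1 k'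
    obtain ⟨⟨-, -, c1⟩, c2, -⟩ := mem_Dr.1 (mem_sdiff.1 c).1
    have o := (T.mem_NT.1 b).1
    exact c1 u (T.O_adj v hv u o) (fun e => c2 (e ▸ o)) (p.2.2.2.symm.trans p'.2.2.2)

theorem sum_dH (T : Tr G D) : ∑ v ∈ T.R, ((T.Dr v \ T.Dm).filter
    fun u => ∃ x, T.Pr x v u ∧ O0 T x v).card ≤ ∑ x ∈ T.R, (dH T x).card := by
  have : ∀ v u, ∃ x, (∃ x, T.Pr x v u ∧ O0 T x v) → T.Pr x v u ∧ O0 T x v := fun v u => by
    by_cases k : ∃ x, T.Pr x v u ∧ O0 T x v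
    exacts [k.imp fun _ k _ => k, ⟨u, fun x => absurd x k⟩]
  choose f hf using this
  rw [← card_sigma, ← card_sigma]
  refine card_le_card_of_injOn (fun a => ⟨f a.1 a.2, a.1⟩) (fun a k => ?_) fun a p b k e => ?_
  · obtain ⟨k1, k2⟩ := mem_sigma.1 (mem_coe.1 k)
    obtain ⟨k2, k3⟩ := mem_filter.1 k2
    have := hf _ _ k3
    exact mem_coe.2 (mem_sigma.2 ⟨this.1.1, mem_filter.2 ⟨k1, this.2, _, k2, this.1⟩⟩)
  · obtain ⟨a1, a2⟩ := a
    obtain ⟨b1, b2⟩ := b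
    obtain ⟨e1, e2⟩ := Sigma.mk.inj e
    obtain rfl : a1 = b1 := eq_of_heq e2
    obtain ⟨p1, p2⟩ := mem_filter.1 (mem_sigma.1 (mem_coe.1 p)).2
    obtain ⟨k1, k2⟩ := mem_filter.1 (mem_sigma.1 (mem_coe.1 k)).2
    have i := (hf _ _ p2).1.2.2.2
    have j := (hf _ _ k2).1.2.2.2
    refine congrArg (Sigma.mk a1) (by_contra fun n => ?_)
    exact (mem_Dr.1 (mem_sdiff.1 k1).1).1.2.2 a2 (mem_Dr.1 (mem_sdiff.1 p1).1).1.1 n
      (i.symm.trans ((show f a1 a2 = f a1 b2 from e1) ▸ j))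

theorem sum_pt3 (h : IsC T) : ∑ y ∈ T.R, ((T.ptN y).card +
    ((T.Dr y \ T.Dm).filter (T.PT y)).card) ≤ (Tix T).card := by
  have a : ∀ y ∈ T.R, ∀ u ∈ T.ptN y ∪ (T.Dr y \ T.Dm).filter (T.PT y),
      Pr T y u ∧ T.col y u < D ∧ T.PT y u := fun y hy u k => (mem_union.1 k).elim
    (fun k => have o := (T.mem_NT.1 (mem_ptN.1 k).1).1
      ⟨h.pr_O hy o, T.lt y hy u o, (mem_ptN.1 k).2⟩)
    fun k => have d := mem_Dr.1 (mem_sdiff.1 (mem_filter.1 k).1).1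
      ⟨d.1, d.2.2, (mem_filter.1 k).2⟩
  rw [sum_congr rfl fun y _ => (card_union_of_disjoint (disjoint_left.2 fun u p k =>
    (mem_Dr.1 (mem_sdiff.1 (mem_filter.1 k).1).1).2.1 (T.mem_NT.1 (mem_ptN.1 p).1).1)).symm,
    ← card_sigma]
  refine card_le_card_of_injOn (fun a => (a.1, T.col a.1 a.2)) (fun b k => ?_) fun b p c k e => ?_
  · obtain ⟨k1, k2⟩ := mem_sigma.1 (mem_coe.1 k)
    obtain ⟨-, k3, k4⟩ := a _ k1 _ k2
    exact mem_coe.2 (mem_filter.2 ⟨mem_product.2 ⟨k1, mem_range.2 k3⟩, k4⟩)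
  · obtain ⟨a1, a2⟩ := b
    obtain ⟨b1, b2⟩ := c
    obtain ⟨rfl, e⟩ := Prod.mk.inj e
    obtain ⟨p1, p2⟩ := mem_sigma.1 (mem_coe.1 p)
    refine congrArg (Sigma.mk a1) (by_contra fun n => ?_)
    exact (a _ p1 _ (mem_sigma.1 (mem_coe.1 k)).2).1.2.2 a2 (a _ p1 _ p2).1.1 n e

/-- The interface inequality from the ledger in which ticketed drops are free. -/
theorem iface3 (h : IsC T) (hD : 5 ≤ D)
    {N : ℕ} (L : ∑ y ∈ T.R, ((Ch T y).card + i2 T y + px T y + (Dq T y).card) + N ≤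
      ∑ _y ∈ T.R, (D - 3)) :
    ∑ e ∈ T.R, (((if T.Bd e = ∅ then 1 else 0) +
      if ∃ x ∈ T.ch e, (T.ch x).Nonempty then (T.Bd e ∩ T.Dm).card else 0) +
        6 * (T.CX e).card) + N <
      (Tix T).card + ∑ v ∈ T.R, (T.Dr v ∩ T.Dm).card := by
  have a := h.final3 hD (Cm T) (O0 T)
  have b : ∀ y ∈ T.R, T.cost3 (Cm T) (O0 T) y + (T.Dr y).card + (dH T y).card +
      (if T.ch y = ∅ then 0 else 2 - (T.Bd (T.p y) ∩ T.R).card) ≤
      ((Ch T y).card + i2 T y + (Dq T y).card) + ((T.Dr y \ T.Dm).filter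
        fun u => ∃ x, T.Pr x y u ∧ O0 T x y).card + ((T.ptN y).card +
        ((T.Dr y \ T.Dm).filter (T.PT y)).card) + (T.Dr y ∩ T.Dm).card := fun y hy => by
    have e := h.card_Ch hy
    have := card_sdiff_add_card_inter (T.Dr y) T.Dm
    have hp : T.p y ∈ T.R := by
      by_cases r : y = T.r
      exacts [by rw [r, T.p_r]; exact T.r_mem, T.p_mem y hy r]
    have := h.Bd_split hp
    have := h.dH_le hp
    have l : T.ch y = ∅ → (dH T y).card = 0 := fun l => card_eq_zero.2 (h.dH_leaf l)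
    have := card_filter_add_card_filter_not (s := T.Dr y \ T.Dm) (T.HasQ (O0 T) y)
    have : ((T.Dr y \ T.Dm).filter (T.HasQ (O0 T) y)).card ≤ ((T.Dr y \ T.Dm).filter
        fun u => ∃ x, T.Pr x y u ∧ O0 T x y).card + ((T.Dr y \ T.Dm).filter (T.PT y)).card :=
      le_trans (card_le_card fun u k => mem_union.2 ((mem_filter.1 k).2.imp
        (fun i => mem_filter.2 ⟨(mem_filter.1 k).1, i⟩)
        fun i => mem_filter.2 ⟨(mem_filter.1 k).1, i⟩)) (card_union_le _ _)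
    unfold Tr.cost3 i2 Dq
    split_ifs at * with c
    · have := l c
      omega
    · omega
  have := sum_le_sum b
  have := sum_px T
  have := h.sum_pt3
  have := sum_dH T
  have := h.sum_clm
  simp only [sum_add_distrib, ← mul_sum] at *
  omega

end IsC

end Pool.Agent.Lib.MP_12eaff_co.Frz.FB
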