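import Pool.Agent.Lib.MP_12eaff_co.Frz.FC.Pool
import Pool.Agent.Lib.MP_12eaff_co.Frz.FC.Led
import Pool.Agent.Lib.MP_12eaff_co.Frz.FB.Glue

set_option autoImplicit false
set_option linter.unusedSectionVars false

namespace Pool.Agent.Lib.MP_12eaff_co.Frz.FB

open Finset Pool.Agent.Lib.MP_12eaff_co.Frz.BK Pool.Agent.Lib.MP_12eaff_co.Frz.Acc2
open scoped Classical

theorem uthm3 : UThm3 18 1 6 := fun V _ G U P h hU => by
  refine ⟨_, mbC, clu (PG G U P) 18 (PD U P), elC (PG G U P) 18 (PD U P), fun _ _ => 0,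
    mbC_clu _, fun T q t1 t2 t3 t4 => ?_⟩
  rw [← t2] at t4 ⊢
  have c : IsC T := isC_of_own t1 t3 (t2 ▸ stat_pg h) (t2 ▸ nok_pg h (by omega) hU) (by omega) t4
  have k := c.iface3 (by omega) c.ledger3
  unfold Tr.Gain Tr.Cost
  rw [one_mul]
  refine (Nat.add_le_add_left (sum_le_sum_of_subset
    (filter_subset_filter _ (late_sub c q))) _).trans_lt (lt_of_eq_of_lt ?_ k)
  refine congrArg (· + _) (sum_congr rfl fun e _ => ?_)
  unfold Tr.gain
  by_cases a : T.Clm e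
  · rw [if_pos a, if_pos (show ∃ x ∈ T.ch e, (T.ch x).Nonempty from a)]
  · rw [if_neg a, if_neg (show ¬ ∃ x ∈ T.ch e, (T.ch x).Nonempty from a)]

end Pool.Agent.Lib.MP_12eaff_co.Frz.FB
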