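import Pool.Agent.Lib.MP_12eaff_co.Frz.FC.Defs

set_option autoImplicit false
set_option linter.unusedSectionVars false

namespace Pool.Agent.Lib.MP_12eaff_co.Frz.FB

open Finset Pool.Agent.Lib.MP_12eaff_co.Frz.BK Pool.Agent.Lib.MP_12eaff_co.Frz.Acc2
open scoped Classical

variable {V : Type} [Fintype V] {G : SimpleGraph V} {D : ℕ}
variable {T : Tr G D} {Y W : Finset V} {q y r x z e r1 : V} {g : V → ℕ}

open Tr IsA

namespace Fam

theorem ch_ne (hy : y ∈ T.ch q) : y ≠ q := fun e => by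
  have := d_ch hy
  rw [e] at this
  omega

/-- a charged neighbour of a child of `q` is visited and is neither the child nor `q` -/
theorem Ch_ne (h : IsC T) (hy : y ∈ T.ch q) {v : V} (k : v ∈ Ch T y) :
    v ∈ T.R ∧ v ≠ y ∧ v ≠ q :=
  have p := h.Ch_in (T.mem_ch.1 hy).1 k
  ⟨p.1, (h.Ch_adj (T.mem_ch.1 hy).1 k).ne.symm, fun e => (T.mem_NT.1 p.2).2 (e ▸ hy)⟩

theorem c_vis (h : IsC T) (f : Fam T Y W q) (hy : y ∈ T.ch q) (m : y ∈ Y ∪ W) :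
    (Ch T y ∩ (Y ∪ W)).card + ((T.ch q ∩ (Y ∪ W)).erase y \ Ch T y).card + 2 ≤
      (T.R ∩ (Y ∪ W)).card := by
  have a : y ∈ T.R ∩ (Y ∪ W) := mem_inter.2 ⟨(T.mem_ch.1 hy).1, m⟩
  have b : q ∈ (T.R ∩ (Y ∪ W)).erase y := mem_erase.2 ⟨(ch_ne hy).symm, mem_inter.2 ⟨f.hq, f.mem⟩⟩
  rw [← card_erase_add_one a, ← card_erase_add_one b, ← card_union_of_disjoint
    (disjoint_left.2 fun v p k => (mem_sdiff.1 k).2 (mem_inter.1 p).1)]
  refine Nat.add_le_add_right (card_le_card (union_subset (fun v p => ?_) fun v p => ?_)) 2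
  · obtain ⟨c1, c2, c3⟩ := Ch_ne h hy (mem_inter.1 p).1
    exact mem_erase.2 ⟨c3, mem_erase.2 ⟨c2, mem_inter.2 ⟨c1, (mem_inter.1 p).2⟩⟩⟩
  · obtain ⟨c1, c2⟩ := mem_erase.1 (mem_sdiff.1 p).1
    obtain ⟨c2, c3⟩ := mem_inter.1 c2
    exact mem_erase.2 ⟨ch_ne c2, mem_erase.2 ⟨c1, mem_inter.2 ⟨(T.mem_ch.1 c2).1, c3⟩⟩⟩

/-- the twin hidden at a child of the owner is late -/
theorem c_tw (h : IsC T) (f : Fam T Y W q) (hD : 14 ≤ D) (hy : y ∈ T.ch q) (m : y ∈ Y ∪ W)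
    (w0 : W ≠ ∅) : ∃ a ∈ W, a ∈ T.Bd y ∧ a ∉ T.R := by
  obtain ⟨yY, yo⟩ := f.chq hy m
  obtain ⟨p1, p2, rfl⟩ := T.mem_ch.1 hy
  obtain ⟨a, aW, k⟩ := f.hid_tw h hD p1 yY w0
  refine ⟨a, aW, k, fun z => disjoint_left.1 f.disj (f.vis a z (mem_union_right _ aW) fun e =>
    (IsB.mem_Bd.1 k).2.1 (e ▸ h.uq_par p1 p2 yo)).1 aW⟩

theorem c_dr (h : IsC T) (f : Fam T Y W q) (hD : 14 ≤ D) (hy : y ∈ T.ch q) (m : y ∈ Y ∪ W) :
    (T.Dr y ∩ (Y ∪ W)).card + tw W ≤ ((Y ∪ W) \ T.R).card ∧ (T.Bd y ∩ T.R).card + tw W ≤ 2 ∧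
      ∀ e ∈ T.Dr y ∩ (Y ∪ W), G.Adj q e := by
  have p1 := (T.mem_ch.1 hy).1
  have l := f.Dr_late h p1
  have cB := h.card_Bd p1
  have nd : ∀ a ∈ T.Bd y, a ∉ T.Dr y := fun a k z =>
    (IsB.mem_Bd.1 k).2.1 (IsB.mem_Dr.1 z).1.2.2
  refine ⟨?_, ?_, fun e k => ?_⟩
  · unfold tw
    split_ifs with w0
    · exact card_le_card l
    obtain ⟨a, a1, a2, a3⟩ := f.c_tw h hD hy m w0
    exact card_lt_card ((ssubset_iff_of_subset l).2 ⟨a, mem_sdiff.2 ⟨mem_union_right _ a1, a3⟩,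
      fun z => nd a a2 (mem_inter.1 z).1⟩)
  · unfold tw
    split_ifs with w0
    · exact (card_le_card inter_subset_left).trans cB
    obtain ⟨a, -, a2, a3⟩ := f.c_tw h hD hy m w0
    exact (card_lt_card ((ssubset_iff_of_subset inter_subset_left).2
      ⟨a, a2, fun z => a3 (mem_inter.1 z).2⟩)).trans_le cB
  obtain ⟨e1, e2⟩ := mem_sdiff.1 (l k)
  have ne : q ≠ e := fun z => e2 (z ▸ f.hq)
  rcases mem_union.1 e1 with eY | eW
  · exact f.adjq eY ne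
  rcases mem_union.1 f.mem with qY | qW
  · exact f.cl.join q qY e eW
  obtain ⟨a, a1, a2, a3⟩ := f.c_tw h hD hy m (ne_empty_of_mem eW)
  have c := card_le_card (show ({a, q, e} : Finset V) ⊆ W by simp [insert_subset_iff, a1, qW, eW])
  rw [card_insert_of_notMem (by
    simp only [mem_insert, mem_singleton, not_or]
    exact ⟨fun z => a3 (z ▸ f.hq), fun z => nd a a2 (z ▸ (mem_inter.1 k).1)⟩), card_pair ne] at c
  have := f.card_W
  omega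

theorem c_quiet (h : IsC T) (hy : y ∈ T.R) {H : Finset V} (n : ¬ Loud T H y) :
    (Ch T y \ H).card ≤ (T.Bd y ∩ T.R).card := card_le_card fun v p => by
  obtain ⟨a, b⟩ := h.Ch_in hy (mem_sdiff.1 p).1
  exact mem_inter.2 ⟨(h.Ch_below hy (mem_sdiff.1 p).1
    (by_contra fun z => n ⟨v, a, (mem_sdiff.1 p).2, (T.mem_NT.1 b).1, z⟩)).1, a⟩

theorem c_one (h : IsC T) (f : Fam T Y W q) (hy : y ∈ T.ch q) (m : y ∈ Y ∪ W)
    (s : jm T y ⊆ Y ∪ W) : (Ch T y \ (Y ∪ W)).card ≤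
      1 + (T.Bd y ∩ T.R).card + if T.ch y = ∅ ∧ Y ⊆ T.R then 1 else 0 := by
  obtain ⟨yY, yo⟩ := f.chq hy m
  obtain ⟨p1, p2, rfl⟩ := T.mem_ch.1 hy
  have sub : Ch T y \ (Y ∪ W) ⊆ T.tE (Cm T) (O0 T) y ∪ (T.Bd y ∩ T.R) ∪
      if T.ch y = ∅ ∧ Y ⊆ T.R then T.O y ∩ T.H (T.p y) else ∅ := fun v p => by
    obtain ⟨k, n⟩ := mem_sdiff.1 p
    rcases h.Ch_cases p1 k with k | k | k | ⟨a, -, k⟩
    · exact mem_union_left _ (mem_union_left _ k)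
    · exact absurd (s k) n
    · exact mem_union_left _ (mem_union_right _ k)
    refine mem_union_right _ ?_
    suffices c : Y ⊆ T.R by rwa [if_pos ⟨a, c⟩]
    refine fun u hu => by_contra fun z => ?_
    obtain ⟨k1, k2⟩ := mem_inter.1 k
    have vR := (T.clo y p1 v k1).1
    have uy : u ≠ y := fun e => z (e ▸ p1)
    refine T.uniq y p1 v k1 u (f.cl.clq y yY u hu uy.symm) (fun e => z (e ▸ vR)) ?_
    rw [col_step p1 p2 (f.cl.real u (mem_union_left _ hu)) uy fun e => z (e ▸ f.hq),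
      col_step p1 p2 (T.real v vR) (T.O_adj y p1 v k1).ne.symm (T.mem_H.1 k2).1.ne.symm]
    exact h.Bd_col f.hq (f.late_Bd (mem_sdiff.2 ⟨hu, z⟩)) (h.H_Bd f.hq vR k2)
  refine (card_le_card sub).trans ((card_union_le _ _).trans (add_le_add
    ((card_union_le _ _).trans (add_le_add_left (card_tE p1) _)) ?_))
  split_ifs
  exacts [h.inner_one p1 p2, le_rfl]

theorem c_two (h : IsC T) (f : Fam T Y W q) (hD : 14 ≤ D) (hy : y ∈ T.ch q) (m : y ∈ Y ∪ W)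
    (s : ¬ jm T y ⊆ Y ∪ W) : (Ch T y ∩ (Y ∪ W)).card + tw W ≤ 2 := by
  obtain ⟨yY, yo⟩ := f.chq hy m
  have hy' := hy
  obtain ⟨p1, p2, rfl⟩ := T.mem_ch.1 hy
  obtain ⟨v, v1, v2⟩ := not_subset.1 s
  obtain ⟨-, -, c1, c2, -⟩ := h.jm_clq p1 (ne_empty_of_mem v1)
  have ij : ∀ w ∈ jm T y, w ∈ insert (T.p y) (insert y (jm T y)) := fun w k =>
    mem_insert_of_mem (mem_insert_of_mem k)
  have vR := c2 (ij v v1)
  have ad : ∀ w ∈ insert (T.p y) (insert y (jm T y)), w ∈ Y ∪ W →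
      w ∈ (insert (T.p y) Y).filter (G.Adj v) := fun w k z =>
    mem_filter.2 ⟨f.sub (c2 k) z, c1 v (ij v v1) w k fun e => v2 (e ▸ z)⟩
  have f2 := (h.far2 vR f.clq f.kreal (f.kout v2) (f.kfar vR v2)).2
  have a := ad y (by simp) m
  have b : T.p y ∈ ((insert (T.p y) Y).filter (G.Adj v)).erase y :=
    mem_erase.2 ⟨p_ne p1 p2, ad _ (by simp) f.mem⟩
  rw [← card_erase_add_one a, ← card_erase_add_one b] at f2
  have j : (jm T y ∩ (Y ∪ W)).card ≤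
      ((((insert (T.p y) Y).filter (G.Adj v)).erase y).erase (T.p y)).card :=
    card_le_card fun w k =>
      have p := jm_W (mem_inter.1 k).1
      mem_erase.2 ⟨O_ne_p p1 p.2, mem_erase.2 ⟨(T.O_adj y p1 w p.2).ne.symm,
        ad w (ij w (mem_inter.1 k).1) (mem_inter.1 k).2⟩⟩
  have sub : Ch T y ∩ (Y ∪ W) ⊆ jm T y ∩ (Y ∪ W) ∪ T.Bd y ∩ T.R ∩ Y := fun w p => by
    obtain ⟨k, n⟩ := mem_inter.1 p
    obtain ⟨d1, -, d3⟩ := Ch_ne h hy' k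
    obtain ⟨wY, wo, -⟩ := f.vis w d1 n d3
    rcases h.Ch_cases p1 k with k | k | k | ⟨-, -, k⟩
    · have t := (mem_tE.1 k).1
      exact absurd wo (h.t_off p1 (T.mem_NT.1 t.1).1 t.2.1).1
    · exact mem_union_left _ (mem_inter.2 ⟨k, n⟩)
    · exact mem_union_right _ (mem_inter.2 ⟨k, wY⟩)
    · exact absurd wo (T.mem_H.1 (mem_inter.1 k).2).2.2.1
  have c := (card_le_card sub).trans (card_union_le _ _)
  unfold tw
  split_ifs with w0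
  · have := h.Bd_clq p1 f.cl.clq
    omega
  obtain ⟨u, u1, u2, -⟩ := f.c_tw h hD hy' m w0
  have : (T.Bd y ∩ T.R ∩ Y).card = 0 := card_eq_zero.2 (eq_empty_of_forall_notMem fun w k =>
    h.Bd_nadj p1 (mem_inter.1 (mem_inter.1 k).1).1 u2 (f.cl.join w (mem_inter.1 k).2 u u1))
  omega

theorem c_out (h : IsC T) (f : Fam T Y W q) (hy : y ∈ T.ch q) (m : y ∈ Y ∪ W) :
    (Ch T y \ (Y ∪ W)).card + Y.card + 2 * tw W ≤ D + 2 := by
  have := f.mem_out h (f.chq hy m).1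
  have : (Ch T y \ (Y ∪ W)).card ≤ (nb G y \ (Y ∪ W)).card := card_le_card
    (sdiff_subset_sdiff (fun v k => mem_nb.2 (h.Ch_adj (T.mem_ch.1 hy).1 k)) Subset.rfl)
  have := f.cardW
  unfold tw
  split_ifs at this ⊢ <;> omega

end Fam

end Pool.Agent.Lib.MP_12eaff_co.Frz.FB
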